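import Pool.Agent.H87.D3.Stmt
import Pool.Agent.H87.D3.Done

/-!
# The Hessian bound for stationary harmonic maps in dimension three (`MP_2697e3_an`)
-/

set_option autoImplicit false

open MeasureTheory Metric Set
open scoped ContDiff

namespace Pool.Agent.Results.MP_2697e3_an.AllOfDimensionThree

open Pool.Agent.H87.SN Pool.Agent.H87.D3

/-- Let `N` be compact with second fundamental form `A`, let `ε > 0` and `C` be real numbers. There is
`δ` such that for every stationary harmonic map `u` of the ball `B_2` of `R^3` into `N` which is smooth on
`B_{r/2}(x)` whenever the energy of `B_r(x)` is less than `ε r`, and which has energy at most `C`: the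
second derivatives of `u` on `B_1`, in the sense of distributions, are integrable functions, and their
`L^1` norm is at most `δ`. -/
theorem result (m : ℕ) (N : Set (E m)) (A : E m → Bil m) (ε C : ℝ)
    (hN : IsCompact N) (hA : IsSecond N A) (hε : 0 < ε) :
    ∃ δ : ℝ, ∀ (u : E 3 → E m) (G : E 3 → Lin 3 m), StatHarm N A u G → EpsReg ε u G →
      energy G ≤ C → ∃ H, IsHessian u H ∧ hessL1 H ≤ ENNReal.ofReal δ :=
  short f_D3H m N A ε C hN hA hε

end Pool.Agent.Results.MP_2697e3_an.AllOfDimensionThree
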