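import Pool.Agent.H87.SH.Stmt
import Pool.Agent.H87.SH.Done

/-!
# Half of the logarithm for the Hessian of smooth harmonic maps (`MP_2697e3_an`)
-/

set_option autoImplicit false

open MeasureTheory Metric Set
open scoped ContDiff ENNReal

namespace Pool.Agent.Results.MP_2697e3_an.HalfLogarithm

open Pool.Agent.H87.SN Pool.Agent.H87.SH

/-- Let `N` be compact with second fundamental form `A` and let `n = d + 2 ≥ 2`. There is `K` such
that for every smooth harmonic map `u` of the ball `B_2` of `R^n` into `N` with energy at most `a` and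
for every nonincreasing function `g` on `[0, ∞)` with values in `[0, 1]` such that the integral of
`g(s)² / s` over `(1, ∞)` is at most `I`: the integral of `|∇²u| g(|∇²u|)` over `B_1` is at most
`K (√a + a √(1 + I))`. -/
theorem result (m : ℕ) (N : Set (E m)) (A : E m → Bil m)
    (hN : IsCompact N) (hA : IsSecond N A) (d : ℕ) :
    ∃ K : ℝ, ∀ u : E (d + 2) → E m, SmoothHarm N A u → ∀ (a I : ℝ) (g : ℝ → ℝ),
      EnergyLe u a → Profile g I →
      hessProf g u ≤ ENNReal.ofReal (K * (Real.sqrt a + a * Real.sqrt (1 + I))) := by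
  obtain ⟨K, -, h⟩ := f_HLF m N A hN hA.old d
  exact ⟨K, fun u h1 a I g h2 h3 => h u h1.1 (fun x hx => (h1.2 x hx).1)
    (fun x hx => (lapl_eq isOpen_ball h1.1 hx).symm.trans (h1.2 x hx).2) a I g h2.1 h3.2.2.1
    h2.2 h3.1 h3.2.1 h3.2.2.2⟩

end Pool.Agent.Results.MP_2697e3_an.HalfLogarithm
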