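import Pool.Agent.H87.SN.Stmt

/-!
# Hessian bound on straight necks of stationary harmonic maps, in all dimensions (`MP_2697e3_an`)
-/

set_option autoImplicit false

open MeasureTheory Metric Set
open scoped ContDiff

namespace Pool.Agent.Results.MP_2697e3_an.StraightNecks

open Pool.Agent.H87.SN

/-- Let `N` be compact with second fundamental form `A`. There is `δ > 0` such that for every `d`,
every `α > 0` and every `M` there is `K` with the following property. Let `r` be a radius function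
on `R^d` of class `C^1` with values in `(0, 1]` and `‖∇r‖ ≤ M r^α`, and let `u` be a stationary
harmonic map of the ball `B_2` of `R^(d+2)` into `N` which is smooth with `ρ |∇u| ≤ δ` on the neck
`ρ > r(z)`. Then the integral of `|∇²u|` over `B_1 ∩ {ρ > 2 r(z)}` is at most `K √E`, `E` the energy
of `u` on `B_2`. -/
theorem result (m : ℕ) (N : Set (E m)) (A : E m → Bil m)
    (hN : IsCompact N) (hA : IsSecond N A) :
    ∃ δ : ℝ, 0 < δ ∧ ∀ (d : ℕ) (α M : ℝ), 0 < α → ∃ K : ℝ,
      ∀ r : E d → ℝ, ContDiff ℝ 1 r → (∀ z, 0 < r z ∧ r z ≤ 1) →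
        (∀ z, ‖fderiv ℝ r z‖ ≤ M * r z ^ α) →
        ∀ (u : E (d + 2) → E m) (G : E (d + 2) → Lin (d + 2) m),
        StatHarm N A u G → SmallOn δ r u →
        hessInt r u ≤ ENNReal.ofReal (K * Real.sqrt (energy G)) := by
  obtain ⟨δ, hδ, h⟩ := f_TH1 m N A hN hA.old
  refine ⟨δ, hδ, fun d α M hα => ?_⟩
  obtain ⟨K, hK⟩ := h d α M hα
  exact ⟨K, fun r h1 h2 h3 u G h4 h5 => hK r h1 h2 h3 u G h4.old h5.1 h5.2⟩

end Pool.Agent.Results.MP_2697e3_an.StraightNecks
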